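import Pool.Agent.N86.EW.T2
import Pool.Agent.H985R3.TA.STA

/-!
Project EW, part 10 (helper86): near-critical two-arm upper bounds (`S_T2`), with the critical
input.
-/

set_option autoImplicit false

namespace Pool.Agent.N86.EW

open Pool.Agent.N116.EW H984N

theorem annUp : ∃ C : ℝ, 0 < C ∧ AnnUp C := by
  obtain ⟨C, hC, h⟩ := H985T.st_A
  exact ⟨C, hC, fun r R hr hR c1 c2 S => h r R hr hR c1 c2 S⟩

/-- **Near-critical two-arm upper bounds.** -/
theorem t2 (h1 : ∀ b, S_XE b) (_h2 : ∀ b, S_XD b) : ∀ b, S_T2 b := t2_of annUp h1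

end Pool.Agent.N86.EW
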