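import Pool.Agent.N116.EW.Vis
import Pool.Agent.N116.EW.Law
import Pool.Agent.N583.EW.XD
import Pool.Agent.N717.EW.XA
import Pool.Agent.N861.EW.Pair
import Pool.Agent.N144.EW.Prob

/-!
Project EW, part 10 (helper86): near-critical two-arm upper bounds (`S_T2`).
-/

set_option autoImplicit false

namespace Pool.Agent.N86.EW

open H974 H389NS H984N H984P H342P Finset
open H12S hiding fl
open Pool.Agent.N116.EW
open Pool.Agent.N717.EW (IB Fa IB_def bdB_iff mem_blk ends_near adj_near last_exit first_entry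
  blk_mono)

/-! ### Dual paths -/

theorem face_ends {e : Edg} {f : Vtx} (h : f = dsrc e ∨ f = dtgt e) :
    (f.1 ≤ (src e).1 ∧ (src e).1 ≤ f.1 + 1 ∧ f.2 ≤ (src e).2 ∧ (src e).2 ≤ f.2 + 1) ∧
    (f.1 ≤ (tgt e).1 ∧ (tgt e).1 ≤ f.1 + 1 ∧ f.2 ≤ (tgt e).2 ∧ (tgt e).2 ≤ f.2 + 1) := by
  obtain ⟨x, y, _ | _⟩ := e <;> rcases h with rfl | rfl <;> simp

/-- the last visit of the faces of a box -/
theorem dlast_exit {G : Set Edg} {c : ℤ × ℤ} {d : ℕ} {u v : Vtx} (hu : IB c (d + 1) u)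
    (h : DReach G u v) : ∃ u', IB c (d + 1) u' ∧ DReach (G \ ↑(blk c d)) u' v := by
  induction h with
  | refl => exact ⟨u, hu, DReach.refl _ _⟩
  | @tail w w' h1 hs ih =>
    by_cases hw' : IB c (d + 1) w'
    · exact ⟨w', hw', DReach.refl _ _⟩
    · obtain ⟨u', hu', h2⟩ := ih
      refine ⟨u', hu', h2.trans (DAdj.reach ?_)⟩
      obtain ⟨e, he, hc⟩ := hs
      refine ⟨e, ⟨he, ?_⟩, hc⟩
      intro heb
      rw [Finset.mem_coe, mem_blk, IB_def, IB_def] at heb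
      have hf : w' = dsrc e ∨ w' = dtgt e := by
        rcases hc with ⟨-, h5⟩ | ⟨h4, -⟩
        · exact Or.inr h5.symm
        · exact Or.inl h4.symm
      have := face_ends hf
      rw [IB_def] at hw'
      push_cast at hw'
      omega

/-- the first exit of the faces of a box -/
theorem dfirst_exit {G : Set Edg} {c : ℤ × ℤ} {m : ℕ} {u v : Vtx}
    (h : DReach G u v) (hv : Fa c m v) : ∃ w, Fa c m w ∧ DReach (G ∩ ↑(blk c m)) u w := by
  have key : ∀ w, DReach G u w → (∃ w, Fa c m w ∧ DReach (G ∩ ↑(blk c m)) u w) ∨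
      (¬ Fa c m w ∧ DReach (G ∩ ↑(blk c m)) u w) := by
    intro w hw
    induction hw with
    | refl =>
      by_cases hf : Fa c m u
      · exact Or.inl ⟨u, hf, DReach.refl _ _⟩
      · exact Or.inr ⟨hf, DReach.refl _ _⟩
    | @tail w w' _ hs ih =>
      rcases ih with ih | ⟨ih1, ih2⟩
      · exact Or.inl ih
      · obtain ⟨e, he, hc⟩ := hs
        have hf : w = dsrc e ∨ w = dtgt e := by
          rcases hc with ⟨h4, -⟩ | ⟨-, h5⟩
          · exact Or.inl h4.symm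
          · exact Or.inr h5.symm
        have heb : e ∈ blk c m := by
          rw [mem_blk, IB_def, IB_def]
          have := face_ends hf
          unfold Fa at ih1
          omega
        have h3 : DReach (G ∩ ↑(blk c m)) u w' := ih2.trans (DAdj.reach ⟨e, ⟨he, heb⟩, hc⟩)
        by_cases hf' : Fa c m w'
        · exact Or.inl ⟨w', hf', h3⟩
        · exact Or.inr ⟨hf', h3⟩
  rcases key v h with h1 | ⟨h1, -⟩
  · exact h1
  · exact absurd hv h1

/-! ### Two arms -/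

theorem T2_iff {c : Vtx} {r m : ℕ} {F : Set Edg} : T2 c r m F ↔
    (∃ x y : Vtx, IB c r x ∧ Fa c m y ∧ Reach (F ∩ (↑(blk c m) \ ↑(blk c r))) x y) ∧
    (∃ f g : Vtx, IB c (r + 1) f ∧ Fa c m g ∧
      DReach ((↑(blk c m) \ ↑(blk c r)) \ F) f g) := Iff.rfl

theorem T2_of {c : Vtx} {r m : ℕ} {F H H' : Set Edg} {x y f g : Vtx} (hrm : r ≤ m)
    (hx : IB c r x) (hy : Fa c m y) (hr : Reach H x y) (hH : H ⊆ F) (hf : IB c (r + 1) f)
    (hg : Fa c m g) (hd : DReach H' f g) (hH' : ∀ e ∈ H', e ∉ F) : T2 c r m F := by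
  rw [T2_iff]
  constructor
  · have hy' : Fa c r y := by
      unfold Fa at hy ⊢
      omega
    obtain ⟨u, hu, -, h4⟩ := last_exit hx hr hy'
    have hu' := (bdB_iff.1 hu).1
    have hu2 : IB c m u := by
      rw [IB_def] at hu' ⊢
      omega
    obtain ⟨w, h5, h6, h7⟩ := first_exit hu2 h4 hy
    refine ⟨u, w, hu', ?_, h7.mono ?_⟩
    · unfold Fa
      omega
    · rintro e ⟨⟨h8, h11⟩, h12⟩
      exact ⟨hH h8, h12, h11⟩
  · obtain ⟨u, hu, h4⟩ := dlast_exit hf hd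
    obtain ⟨w, h5, h6⟩ := dfirst_exit h4 hg
    refine ⟨u, w, hu, h5, h6.mono ?_⟩
    rintro e ⟨⟨h8, h11⟩, h12⟩
    exact ⟨⟨h12, h11⟩, hH' e h8⟩

theorem T2_sub {c : Vtx} {r r' m m' : ℕ} {F : Set Edg} (h1 : r ≤ r') (h2 : r' ≤ m')
    (h3 : m' ≤ m) (h : T2 c r m F) : T2 c r' m' F := by
  obtain ⟨⟨x, y, hx, hy, hr⟩, f, g, hf, hg, hd⟩ := T2_iff.1 h
  refine T2_of h2 (x := x) (y := y) (f := f) (g := g) ?_ ?_ hr Set.inter_subset_left ?_ ?_ hd ?_
  · rw [IB_def] at hx ⊢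
    omega
  · unfold Fa at hy ⊢
    omega
  · rw [IB_def] at hf ⊢
    push_cast at hf ⊢
    omega
  · unfold Fa at hg ⊢
    omega
  · rintro e ⟨-, he⟩
    exact he

theorem Lc_T2 (c : Vtx) (r m : ℕ) :
    N861.EW.Lc (blk c m) (fun F _ => T2 c r m ↑F) := by
  intro F G
  have h1 : (↑F : Set Edg) ∩ (↑(blk c m) \ ↑(blk c r)) =
      ↑(F ∩ blk c m) ∩ (↑(blk c m) \ ↑(blk c r)) := by
    ext e
    simp only [Set.mem_inter_iff, Set.mem_sdiff, coe_inter, mem_coe]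
    tauto
  have h2 : ((↑(blk c m) \ ↑(blk c r)) \ ↑F : Set Edg) =
      (↑(blk c m) \ ↑(blk c r)) \ ↑(F ∩ blk c m) := by
    ext e
    simp only [Set.mem_inter_iff, Set.mem_sdiff, coe_inter, mem_coe]
    tauto
  simp only [T2, h1, h2]

/-- The critical bound. -/
theorem crit {C : ℝ} (hC : 0 < C) (hA : AnnUp C) {c : Vtx} {r m : ℕ} (hr : r ≤ 2) (hm : 1 ≤ m)
    {S : Finset Edg} (hS : blk c m ⊆ S) :
    Pr (fun _ => (1 / 2 : ℝ)) S (fun F => T2 c r m ↑F) ≤ (2 * C + 2) * (m : ℝ) ^ (-(1 / 4 : ℝ)) := by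
  have hok : Ok (fun _ : Edg => (1 / 2 : ℝ)) := fun _ => by norm_num
  have hm0 : (0 : ℝ) < m := by exact_mod_cast hm
  have hpos : 0 < (m : ℝ) ^ (-(1 / 4 : ℝ)) := by positivity
  by_cases h3 : 3 ≤ m
  · have h1 : Pr (fun _ => (1 / 2 : ℝ)) S (fun F => T2 c r m ↑F) ≤
        C * (((3 : ℕ) : ℝ) / m) ^ (1 / 4 : ℝ) := by
      refine le_trans (Pr_mono hok ?_) (hA 3 m (by norm_num) h3 c.1 c.2 S)
      intro F hF hT
      obtain ⟨⟨x, y, hx, hy, hr'⟩, f, g, hf, hg, hd⟩ := T2_iff.1 hT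
      refine ⟨⟨x, y, ?_, hy, hr'.mono Set.inter_subset_left⟩, f, g, ?_, hg, hd.mono ?_⟩
      · rw [IB_def] at hx
        unfold inR
        push_cast
        omega
      · rw [IB_def] at hf
        unfold inR
        push_cast at hf ⊢
        omega
      · rintro e ⟨⟨he1, -⟩, he2⟩
        rw [mem_coe, mem_sdiff]
        exact ⟨hS he1, he2⟩
    have h2 : (((3 : ℕ) : ℝ) / m) ^ (1 / 4 : ℝ) ≤ 2 * (m : ℝ) ^ (-(1 / 4 : ℝ)) := by
      rw [Real.div_rpow (by norm_num) hm0.le, Real.rpow_neg hm0.le, div_eq_mul_inv]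
      refine mul_le_mul_of_nonneg_right ?_ (by positivity)
      have h4 : (2 : ℝ) = (16 : ℝ) ^ (1 / 4 : ℝ) := by
        rw [show (16 : ℝ) = 2 ^ (4 : ℝ) by norm_num, ← Real.rpow_mul (by norm_num)]
        norm_num
      rw [h4]
      exact Real.rpow_le_rpow (by norm_num) (by norm_num) (by norm_num)
    nlinarith [mul_le_mul_of_nonneg_left h2 hC.le]
  · have h1 : Pr (fun _ => (1 / 2 : ℝ)) S (fun F => T2 c r m ↑F) ≤ 1 := Pr_le_one hok _ _
    have h2 : (1 : ℝ) ≤ 2 * (m : ℝ) ^ (-(1 / 4 : ℝ)) := by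
      have h4 : (1 / 2 : ℝ) ≤ (m : ℝ) ^ (-(1 / 4 : ℝ)) := by
        have hm2 : (m : ℝ) ≤ 16 := by
          have : m ≤ 16 := by omega
          exact_mod_cast this
        have h5 : (16 : ℝ) ^ (-(1 / 4 : ℝ)) ≤ (m : ℝ) ^ (-(1 / 4 : ℝ)) :=
          Real.rpow_le_rpow_of_nonpos hm0 hm2 (by norm_num)
        have h6 : (16 : ℝ) ^ (-(1 / 4 : ℝ)) = 1 / 2 := by
          rw [show (16 : ℝ) = 2 ^ (4 : ℝ) by norm_num, ← Real.rpow_mul (by norm_num)]
          norm_num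
        rw [← h6]
        exact h5
      linarith
    nlinarith [mul_pos hC hpos]

/-! ### The deterministic dichotomy -/

theorem dich {c : Vtx} {m : ℕ} {F G : Set Edg} (hFG : F ⊆ G) (hm : 8 ≤ m) (h : T2 c 2 m G) :
    T2 c 2 (m / 2) F ∨ ∃ e ∈ (blk c m).filter (fun e => 2 ≤ nrm c e ∧ nrm c e ≤ m / 2),
      (e ∈ G ∧ e ∉ F) ∧ XE' e (nrm c e / 8) F G ∧
        (2 ≤ nrm c e / 8 → T2 c 2 (nrm c e / 8) F) := by
  obtain ⟨⟨x, y, hx, hy, hr⟩, f, g, hf, hg, hd⟩ := T2_iff.1 h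
  have hdF : ∀ e ∈ ((↑(blk c m) \ ↑(blk c 2)) \ G : Set Edg), e ∉ F := by
    rintro e ⟨-, he⟩ heF
    exact he (hFG heF)
  obtain ⟨K, hK⟩ : ∃ K : Set Vtx, K = {z | Reach (F ∩ (↑(blk c m) \ ↑(blk c 2))) x z} := ⟨_, rfl⟩
  have hxK : x ∈ K := by
    rw [hK]
    exact Reach.refl _ _
  by_cases hc : ∃ w ∈ K, Fa c (m / 2) w
  · left
    obtain ⟨w, hw, hw2⟩ := hc
    rw [hK] at hw
    refine T2_of (by omega) hx hw2 hw Set.inter_subset_left hf ?_ hd hdF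
    unfold Fa at hg ⊢
    omega
  · right
    have hin : ∀ w ∈ K, ¬ Fa c (m / 2) w := fun w hw h' => hc ⟨w, hw, h'⟩
    have hyK : y ∉ K := by
      intro h'
      apply hin y h'
      unfold Fa at hy ⊢
      omega
    obtain ⟨e, ⟨heG, heA⟩, p, q, hEn, hpK, hqK, hq⟩ := first_entry hyK hr.symm hxK
    have heF : e ∉ F := by
      intro heF
      apply hqK
      rw [hK] at hpK ⊢
      refine Reach.trans hpK (Adj.reach ⟨e, ⟨heF, heA⟩, ?_⟩)
      rcases hEn with ⟨h8, h9⟩ | ⟨h8, h9⟩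
      · exact Or.inl ⟨h8.symm, h9.symm⟩
      · exact Or.inr ⟨h9.symm, h8.symm⟩
    have heA' : e ∈ blk c m ∧ e ∉ blk c 2 := heA
    obtain ⟨D, hD⟩ : ∃ D, D = nrm c e := ⟨_, rfl⟩
    have hDe : D = max ((src e).1 - c.1).natAbs ((src e).2 - c.2).natAbs := hD
    have hn := ends_near e
    have hp2 := hin p hpK
    have hD1 : 2 ≤ D := by
      by_contra hlt
      apply heA'.2
      rw [mem_blk, IB_def, IB_def]
      omega
    have hD2 : D ≤ m / 2 := by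
      unfold Fa at hp2
      rcases hEn with ⟨h8, h9⟩ | ⟨h8, h9⟩
      · rw [h8] at hp2
        omega
      · rw [h8] at hp2
        omega
    refine ⟨e, ?_, ⟨heG, heF⟩, ?_, ?_⟩
    · rw [mem_filter, ← hD]
      exact ⟨heA'.1, hD1, hD2⟩
    · rw [← hD]
      intro hm1
      obtain ⟨d, hdd⟩ : ∃ d, d = D / 8 := ⟨_, rfl⟩
      rw [← hdd] at hm1 ⊢
      have hblk : ∀ g ∈ blk (src e) d, g ∈ (↑(blk c m) \ ↑(blk c 2) : Set Edg) := by
        intro g hg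
        rw [mem_blk, IB_def, IB_def] at hg
        refine ⟨?_, ?_⟩
        · rw [Finset.mem_coe, mem_blk, IB_def, IB_def]
          omega
        · rw [Finset.mem_coe, mem_blk, IB_def, IB_def]
          push_cast
          omega
      have hCB : CB (src e) d (F \ {e}) p ⊆ K := by
        intro z hz
        rw [hK] at hpK ⊢
        refine Reach.trans hpK (Reach.mono ?_ hz)
        rintro g ⟨⟨g1, -⟩, g2⟩
        exact ⟨g1, hblk g g2⟩
      have hpin : IB (src e) d p ∧ IB (src e) d q := by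
        rw [IB_def, IB_def]
        rcases hEn with ⟨rfl, rfl⟩ | ⟨rfl, rfl⟩
        · omega
        · omega
      have hfarx : Fa (src e) d x := by
        rw [IB_def] at hx
        push_cast at hx
        unfold Fa
        omega
      have hfary : Fa (src e) d y := by
        unfold Fa at hy ⊢
        omega
      refine ⟨p, q, hEn, fun h => hqK (hCB h), ?_, ?_⟩
      · have hpu : Reach (F \ {e}) p x := by
          rw [hK] at hpK
          refine (Reach.symm hpK).mono ?_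
          rintro g ⟨g1, -⟩
          exact ⟨g1, fun h => heF (by rwa [Set.mem_singleton_iff.1 h] at g1)⟩
        obtain ⟨w', h8, h9, h10⟩ := first_exit hpin.1 hpu hfarx
        refine ⟨w', bdB_iff.2 ⟨h8, ?_⟩, h10⟩
        unfold Fa
        omega
      · obtain ⟨w', h8, h9, h10⟩ := first_exit hpin.2 (Reach.symm hq) hfary
        refine ⟨w', bdB_iff.2 ⟨h8, ?_⟩, h10.mono ?_⟩
        · unfold Fa
          omega
        · rintro g ⟨⟨⟨g0, -⟩, g1, g2⟩, g3⟩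
          refine ⟨⟨⟨g0, ?_⟩, fun h => g1 (hCB h), fun h => g2 (hCB h)⟩, g3⟩
          intro h
          rw [Set.mem_singleton_iff.1 h] at g1 g2
          rcases hEn with ⟨h11, -⟩ | ⟨h11, -⟩
          · rw [← h11] at g1; exact g1 hpK
          · rw [← h11] at g2; exact g2 hpK
    · rw [← hD]
      intro hm1
      rw [hK] at hpK
      refine T2_of hm1 hx ?_ hpK Set.inter_subset_left hf ?_ hd hdF
      · unfold Fa
        rcases hEn with ⟨rfl, rfl⟩ | ⟨rfl, rfl⟩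
        · omega
        · omega
      · unfold Fa at hg ⊢
        omega

/-! ### Sums -/

theorem sum_rpow (N : ℕ) :
    ∑ j ∈ range N, ((j : ℝ) + 1) ^ (-(1 / 2 : ℝ)) ≤ 2 * (N : ℝ) ^ (1 / 2 : ℝ) := by
  induction N with
  | zero =>
    simp
  | succ N ih =>
    rw [sum_range_succ]
    have hx : (0 : ℝ) < (N : ℝ) + 1 := by positivity
    have h1 : ((N : ℝ)) ^ (1 / 2 : ℝ) ≤
        ((N : ℝ) + 1) ^ (1 / 2 : ℝ) - 1 / 2 * ((N : ℝ) + 1) ^ (-(1 / 2 : ℝ)) := by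
      have e1 : (N : ℝ) = ((N : ℝ) + 1) * (1 + -(1 / ((N : ℝ) + 1))) := by
        field_simp
        ring
      have e2 : -1 ≤ -(1 / ((N : ℝ) + 1)) := by
        rw [neg_le_neg_iff, div_le_one hx]
        have : (0 : ℝ) ≤ N := Nat.cast_nonneg N
        linarith
      have e3 := rpow_one_add_le_one_add_mul_self e2 (p := 1 / 2) (by norm_num) (by norm_num)
      have e4 : ((N : ℝ) + 1) ^ (1 / 2 : ℝ) * (1 / ((N : ℝ) + 1)) =
          ((N : ℝ) + 1) ^ (-(1 / 2 : ℝ)) := by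
        have e5 : (1 / ((N : ℝ) + 1)) = ((N : ℝ) + 1) ^ (-1 : ℝ) := by
          rw [Real.rpow_neg_one, one_div]
        rw [e5, ← Real.rpow_add hx]
        norm_num
      calc ((N : ℝ)) ^ (1 / 2 : ℝ) =
            (((N : ℝ) + 1) * (1 + -(1 / ((N : ℝ) + 1)))) ^ (1 / 2 : ℝ) := by rw [← e1]
        _ = ((N : ℝ) + 1) ^ (1 / 2 : ℝ) * (1 + -(1 / ((N : ℝ) + 1))) ^ (1 / 2 : ℝ) := by
            rw [Real.mul_rpow hx.le (by linarith)]
        _ ≤ ((N : ℝ) + 1) ^ (1 / 2 : ℝ) * (1 + 1 / 2 * -(1 / ((N : ℝ) + 1))) :=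
            mul_le_mul_of_nonneg_left e3 (by positivity)
        _ = ((N : ℝ) + 1) ^ (1 / 2 : ℝ) -
              1 / 2 * (((N : ℝ) + 1) ^ (1 / 2 : ℝ) * (1 / ((N : ℝ) + 1))) := by ring
        _ = _ := by rw [e4]
    push_cast
    linarith

theorem sum_nrm (c : ℤ × ℤ) (N : ℕ) (T : Finset Edg)
    (hT : ∀ e ∈ T, 1 ≤ nrm c e ∧ nrm c e ≤ N) :
    ∑ e ∈ T, ((nrm c e : ℕ) : ℝ) ^ (-(3 / 2 : ℝ)) ≤ 48 * (N : ℝ) ^ (1 / 2 : ℝ) := by
  have hmaps : ∀ e ∈ T, nrm c e - 1 ∈ range N := by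
    intro e he
    have := hT e he
    rw [mem_range]
    omega
  rw [← sum_fiberwise_of_maps_to hmaps]
  calc ∑ j ∈ range N, ∑ e ∈ T.filter (fun e => nrm c e - 1 = j),
        ((nrm c e : ℕ) : ℝ) ^ (-(3 / 2 : ℝ))
      ≤ ∑ j ∈ range N, 24 * ((j : ℝ) + 1) ^ (-(1 / 2 : ℝ)) := by
        refine sum_le_sum fun j hj => ?_
        have e1 : T.filter (fun e => nrm c e - 1 = j) = T.filter (fun e => nrm c e = j + 1) := by
          ext e
          simp only [mem_filter]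
          constructor
          · rintro ⟨h, h'⟩
            have := hT e h
            exact ⟨h, by omega⟩
          · rintro ⟨h, h'⟩
            exact ⟨h, by omega⟩
        rw [e1]
        have e2 : ∑ e ∈ T.filter (fun e => nrm c e = j + 1), ((nrm c e : ℕ) : ℝ) ^ (-(3 / 2 : ℝ)) =
            ((T.filter (fun e => nrm c e = j + 1)).card : ℝ) *
              ((j : ℝ) + 1) ^ (-(3 / 2 : ℝ)) := by
          rw [← nsmul_eq_mul, ← sum_const]
          refine sum_congr rfl fun e he => ?_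
          rw [(mem_filter.1 he).2]
          push_cast
          rfl
        rw [e2]
        have e3 := N861.EW.card_nrm c T (j := j + 1) (by omega)
        have hx : (0 : ℝ) < (j : ℝ) + 1 := by positivity
        have e4 : ((j : ℝ) + 1) ^ (-(1 / 2 : ℝ)) =
            ((j : ℝ) + 1) * ((j : ℝ) + 1) ^ (-(3 / 2 : ℝ)) := by
          have := Real.rpow_add hx 1 (-(3 / 2 : ℝ))
          rw [Real.rpow_one] at this
          rw [← this]
          norm_num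
        rw [e4]
        push_cast at e3
        have h5 : 0 ≤ ((j : ℝ) + 1) ^ (-(3 / 2 : ℝ)) := by positivity
        nlinarith
    _ = 24 * ∑ j ∈ range N, ((j : ℝ) + 1) ^ (-(1 / 2 : ℝ)) := by rw [mul_sum]
    _ ≤ 24 * (2 * (N : ℝ) ^ (1 / 2 : ℝ)) :=
        mul_le_mul_of_nonneg_left (sum_rpow N) (by norm_num)
    _ = 48 * (N : ℝ) ^ (1 / 2 : ℝ) := by ring

/-! ### One edge -/

theorem pow_cmp {D : ℕ} {s : ℝ} (hs : s ≤ 0) (h : 1 ≤ D / 8) :
    ((D / 8 : ℕ) : ℝ) ^ s ≤ (((D : ℝ) + 1) / 16) ^ s := by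
  apply Real.rpow_le_rpow_of_nonpos (by positivity) _ hs
  have h2 : D + 1 ≤ 16 * (D / 8) := by omega
  have h3 : ((D : ℝ) + 1) ≤ 16 * ((D / 8 : ℕ) : ℝ) := by exact_mod_cast h2
  linarith

theorem one_le_pow {D : ℕ} {s : ℝ} (hs : s ≤ 0) (h : D ≤ 15) :
    1 ≤ (((D : ℝ) + 1) / 16) ^ s := by
  apply Real.one_le_rpow_of_pos_of_le_one_of_nonpos (by positivity) _ hs
  have h3 : (D : ℝ) ≤ 15 := by exact_mod_cast h
  linarith

theorem pr_edge {C0 M η : ℝ} {n : ℕ} (hM : 0 < M) (hC0 : 0 < C0) (h0 : 0 ≤ η) (h1 : η ≤ 1)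
    (HX : ∀ (e : Edg) (m : ℕ), 1 ≤ m → m ≤ n → ∀ S : Finset Edg, blk (src e) m ⊆ S →
      PC true η S (fun F G => XE e m ↑F ↑G) ≤ M * (m : ℝ) ^ (-(5 / 4 : ℝ)))
    (HC : ∀ (c : Vtx) (m : ℕ), 1 ≤ m → ∀ S : Finset Edg, blk c m ⊆ S →
      Pr (fun _ => (1 / 2 : ℝ)) S (fun F => T2 c 2 m ↑F) ≤ C0 * (m : ℝ) ^ (-(1 / 4 : ℝ)))
    {c : Vtx} {m : ℕ} (hmn : m ≤ n) {S : Finset Edg} (hS : blk c m ⊆ S) {e : Edg}
    (he : e ∈ (blk c m).filter (fun e => 2 ≤ nrm c e ∧ nrm c e ≤ m / 2)) :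
    PC true η S (fun F G => (e ∈ G ∧ e ∉ F) ∧ XE' e (nrm c e / 8) ↑F ↑G ∧
        (2 ≤ nrm c e / 8 → T2 c 2 (nrm c e / 8) ↑F)) ≤
      η * (32 * ((M + 1) * (C0 + 1))) * ((nrm c e : ℕ) : ℝ) ^ (-(3 / 2 : ℝ)) := by
  rw [mem_filter] at he
  obtain ⟨heb, hD1, hD2⟩ := he
  obtain ⟨D, hD⟩ : ∃ D, D = nrm c e := ⟨_, rfl⟩
  have hDe : D = max ((src e).1 - c.1).natAbs ((src e).2 - c.2).natAbs := hD
  rw [← hD] at hD1 hD2 ⊢
  obtain ⟨d, hdd⟩ : ∃ d, d = D / 8 := ⟨_, rfl⟩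
  have hn := ends_near e
  have s1 : ({e} : Finset Edg) ⊆ S := singleton_subset_iff.2 (hS heb)
  have s2 : blk (src e) (D / 8) ⊆ S := by
    intro g hg
    apply hS
    rw [mem_blk, IB_def, IB_def] at hg ⊢
    omega
  have s2' : blk (src e) (D / 8) \ {e} ⊆ S := sdiff_subset.trans s2
  have s3 : blk c (D / 8) ⊆ S := by
    intro g hg
    apply hS
    exact blk_mono (by omega) hg
  have dj : Disjoint ({e} : Finset Edg) ((blk (src e) (D / 8) \ {e}) ∪ blk c (D / 8)) := by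
    rw [disjoint_left]
    intro g hg hg'
    rw [mem_singleton] at hg
    rw [hg, mem_union, mem_sdiff] at hg'
    rcases hg' with hg' | hg'
    · exact hg'.2 (mem_singleton_self e)
    · have := N861.EW.nrm_le_of_mem hg'
      omega
  have dj2 : Disjoint (blk (src e) (D / 8) \ {e}) (blk c (D / 8)) := by
    rw [disjoint_left]
    intro g hg hg'
    rw [mem_sdiff, mem_blk, IB_def, IB_def] at hg
    rw [mem_blk, IB_def, IB_def] at hg'
    omega
  have lF : N861.EW.Lc {e} (fun F G => e ∈ G ∧ e ∉ F) := N861.EW.Lc_flip e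
  have lX := N861.EW.Lc_XE' e (D / 8)
  have lT : N861.EW.Lc (blk c (D / 8)) (fun F _ => 2 ≤ D / 8 → T2 c 2 (D / 8) ↑F) :=
    fun F G => imp_congr_right fun _ => Lc_T2 c 2 (D / 8) F G
  have p1 := N861.EW.PC_indep (b := true) (η := η) s1 (union_subset s2' s3) dj lF (lX.and lT)
  have p2 := N861.EW.PC_indep (b := true) (η := η) s2' s3 dj2 lX lT
  rw [p1, p2]
  have q1 : PC true η S (fun F G => e ∈ G ∧ e ∉ F) = η / 2 := N144.EW.pr_flip true (hS heb)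
  rw [q1]
  have hDpos : (0 : ℝ) < ((D : ℝ) + 1) / 16 := by positivity
  have q2 : PC true η S (fun F G => XE' e (D / 8) ↑F ↑G) ≤
      (M + 1) * (((D : ℝ) + 1) / 16) ^ (-(5 / 4 : ℝ)) := by
    by_cases h8 : 1 ≤ D / 8
    · have h3 : PC true η S (fun F G => XE' e (D / 8) ↑F ↑G) ≤
          M * ((D / 8 : ℕ) : ℝ) ^ (-(5 / 4 : ℝ)) := by
        refine le_trans (N861.EW.PC_mono h0 h1 ?_) (HX e (D / 8) h8 (by omega) S s2)
        intro F G _ h
        exact h h8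
      have h4 := pow_cmp (s := -(5 / 4 : ℝ)) (by norm_num) h8
      have h5 : 0 < (((D : ℝ) + 1) / 16) ^ (-(5 / 4 : ℝ)) := by positivity
      nlinarith [mul_le_mul_of_nonneg_left h4 hM.le]
    · have h3 : PC true η S (fun F G => XE' e (D / 8) ↑F ↑G) ≤ 1 := N861.EW.PC_le_one h0 h1 _ _
      have h4 := one_le_pow (D := D) (s := -(5 / 4 : ℝ)) (by norm_num) (by omega)
      nlinarith
  have q3 : PC true η S (fun F _ => 2 ≤ D / 8 → T2 c 2 (D / 8) ↑F) ≤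
      (C0 + 1) * (((D : ℝ) + 1) / 16) ^ (-(1 / 4 : ℝ)) := by
    by_cases h8 : 2 ≤ D / 8
    · have h3 : PC true η S (fun F _ => 2 ≤ D / 8 → T2 c 2 (D / 8) ↑F) ≤
          C0 * ((D / 8 : ℕ) : ℝ) ^ (-(1 / 4 : ℝ)) := by
        refine le_trans (N861.EW.PC_mono h0 h1 (B := fun F _ => T2 c 2 (D / 8) ↑F) ?_) ?_
        · intro F G _ h
          exact h h8
        · rw [N861.EW.PC_lo_true]
          exact HC c (D / 8) (by omega) S s3
      have h4 := pow_cmp (D := D) (s := -(1 / 4 : ℝ)) (by norm_num) (by omega)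
      have h5 : 0 < (((D : ℝ) + 1) / 16) ^ (-(1 / 4 : ℝ)) := by positivity
      nlinarith [mul_le_mul_of_nonneg_left h4 hC0.le]
    · have h3 : PC true η S (fun F _ => 2 ≤ D / 8 → T2 c 2 (D / 8) ↑F) ≤ 1 :=
        N861.EW.PC_le_one h0 h1 _ _
      have h4 := one_le_pow (D := D) (s := -(1 / 4 : ℝ)) (by norm_num) (by omega)
      nlinarith
  have n3 : 0 ≤ PC true η S (fun F _ => 2 ≤ D / 8 → T2 c 2 (D / 8) ↑F) :=
    N861.EW.PC_nonneg h0 h1 _ _
  have h5 : 0 < (((D : ℝ) + 1) / 16) ^ (-(5 / 4 : ℝ)) := by positivity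
  have h6 : (((D : ℝ) + 1) / 16) ^ (-(5 / 4 : ℝ)) * (((D : ℝ) + 1) / 16) ^ (-(1 / 4 : ℝ)) ≤
      64 * ((D : ℕ) : ℝ) ^ (-(3 / 2 : ℝ)) := by
    rw [← Real.rpow_add hDpos, show (-(5 / 4 : ℝ)) + -(1 / 4 : ℝ) = -(3 / 2 : ℝ) by norm_num]
    have hDp : (0 : ℝ) < D := by
      have : 0 < D := by omega
      exact_mod_cast this
    have h7 : (((D : ℝ) + 1) / 16) ^ (-(3 / 2 : ℝ)) ≤ ((D : ℝ) / 16) ^ (-(3 / 2 : ℝ)) :=
      Real.rpow_le_rpow_of_nonpos (by positivity) (by linarith) (by norm_num)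
    have h8 : ((D : ℝ) / 16) ^ (-(3 / 2 : ℝ)) = 64 * (D : ℝ) ^ (-(3 / 2 : ℝ)) := by
      rw [Real.div_rpow hDp.le (by norm_num)]
      have h9 : (16 : ℝ) ^ (-(3 / 2 : ℝ)) = 1 / 64 := by
        rw [show (16 : ℝ) = 2 ^ (4 : ℝ) by norm_num, ← Real.rpow_mul (by norm_num)]
        rw [show (4 : ℝ) * -(3 / 2) = ((-6 : ℤ) : ℝ) by norm_num, Real.rpow_intCast]
        norm_num
      rw [h9]
      field_simp
    rw [← h8]
    exact h7
  calc η / 2 * (PC true η S (fun F G => XE' e (D / 8) ↑F ↑G) *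
        PC true η S (fun F _ => 2 ≤ D / 8 → T2 c 2 (D / 8) ↑F))
      ≤ η / 2 * (((M + 1) * (((D : ℝ) + 1) / 16) ^ (-(5 / 4 : ℝ))) *
        ((C0 + 1) * (((D : ℝ) + 1) / 16) ^ (-(1 / 4 : ℝ)))) := by
        refine mul_le_mul_of_nonneg_left ?_ (by linarith)
        exact mul_le_mul q2 q3 n3 (by positivity)
    _ = η / 2 * ((M + 1) * (C0 + 1)) * ((((D : ℝ) + 1) / 16) ^ (-(5 / 4 : ℝ)) *
        (((D : ℝ) + 1) / 16) ^ (-(1 / 4 : ℝ))) := by ring
    _ ≤ η / 2 * ((M + 1) * (C0 + 1)) * (64 * ((D : ℕ) : ℝ) ^ (-(3 / 2 : ℝ))) :=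
        mul_le_mul_of_nonneg_left h6 (by positivity)
    _ = _ := by ring

/-! ### The upper configuration, `b = true` -/

theorem gT (hA : ∃ C : ℝ, 0 < C ∧ AnnUp C) (h : S_XE true) : ∃ C t : ℝ, 0 < C ∧ 0 < t ∧
    ∀ (n : ℕ) (η : ℝ), 1 ≤ n → 0 ≤ η → η ≤ 1 → η * (n : ℝ) ^ (3 / 4 : ℝ) ≤ t →
    ∀ (c : Vtx) (m : ℕ), 1 ≤ m → m ≤ n → ∀ S : Finset Edg, blk c m ⊆ S →
      PC true η S (fun _ G => T2 c 2 m ↑G) ≤ C * (m : ℝ) ^ (-(1 / 4 : ℝ)) := by
  obtain ⟨C1, hC1, hA⟩ := hA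
  obtain ⟨M, t, hM, ht, HX⟩ := h
  obtain ⟨C0, hC0⟩ : ∃ C0, C0 = 2 * C1 + 2 := ⟨_, rfl⟩
  have hC0p : 0 < C0 := by rw [hC0]; linarith
  have HC : ∀ (c : Vtx) (m : ℕ), 1 ≤ m → ∀ S : Finset Edg, blk c m ⊆ S →
      Pr (fun _ => (1 / 2 : ℝ)) S (fun F => T2 c 2 m ↑F) ≤ C0 * (m : ℝ) ^ (-(1 / 4 : ℝ)) := by
    intro c m hm S hS
    rw [hC0]
    exact crit hC1 hA le_rfl hm hS
  obtain ⟨L, hL⟩ : ∃ L, L = 32 * ((M + 1) * (C0 + 1)) := ⟨_, rfl⟩
  have hLp : 0 < L := by rw [hL]; positivity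
  refine ⟨2 * C0 + 2 + L * 48 * t, t, by positivity, ht, ?_⟩
  intro n η hn h0 h1 hη c m hm hmn S hS
  have hm0 : (0 : ℝ) < m := by exact_mod_cast hm
  have hpos : 0 < (m : ℝ) ^ (-(1 / 4 : ℝ)) := by positivity
  by_cases h8 : 8 ≤ m
  · have k1 : PC true η S (fun _ G => T2 c 2 m ↑G) ≤
        PC true η S (fun F _ => T2 c 2 (m / 2) ↑F) +
        ∑ e ∈ (blk c m).filter (fun e => 2 ≤ nrm c e ∧ nrm c e ≤ m / 2),
          PC true η S (fun F G => (e ∈ G ∧ e ∉ F) ∧ XE' e (nrm c e / 8) ↑F ↑G ∧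
            (2 ≤ nrm c e / 8 → T2 c 2 (nrm c e / 8) ↑F)) := by
      refine le_trans ?_ (add_le_add_right (N861.EW.PC_exists_le h0 h1 S _ _) _)
      refine le_trans (N861.EW.PC_mono h0 h1 ?_) (N861.EW.PC_or_le h0 h1 S _ _)
      intro F G hFG hT
      exact dich (by exact_mod_cast hFG) h8 hT
    have k2 : PC true η S (fun F _ => T2 c 2 (m / 2) ↑F) ≤ 2 * C0 * (m : ℝ) ^ (-(1 / 4 : ℝ)) := by
      rw [N861.EW.PC_lo_true]
      have hS' : blk c (m / 2) ⊆ S := fun g hg => hS (blk_mono (by omega) hg)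
      refine le_trans (HC c (m / 2) (by omega) S hS') ?_
      have k3 : ((m / 2 : ℕ) : ℝ) ^ (-(1 / 4 : ℝ)) ≤ ((m : ℝ) / 16) ^ (-(1 / 4 : ℝ)) := by
        apply Real.rpow_le_rpow_of_nonpos (by positivity) _ (by norm_num)
        have k4 : m ≤ 16 * (m / 2) := by omega
        have k5 : (m : ℝ) ≤ 16 * ((m / 2 : ℕ) : ℝ) := by exact_mod_cast k4
        linarith
      have k4 : ((m : ℝ) / 16) ^ (-(1 / 4 : ℝ)) = 2 * (m : ℝ) ^ (-(1 / 4 : ℝ)) := by
        rw [Real.div_rpow hm0.le (by norm_num)]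
        have h9 : (16 : ℝ) ^ (-(1 / 4 : ℝ)) = 1 / 2 := by
          rw [show (16 : ℝ) = 2 ^ (4 : ℝ) by norm_num, ← Real.rpow_mul (by norm_num)]
          norm_num
        rw [h9]
        field_simp
      rw [k4] at k3
      nlinarith [mul_le_mul_of_nonneg_left k3 hC0p.le]
    have k3 : ∑ e ∈ (blk c m).filter (fun e => 2 ≤ nrm c e ∧ nrm c e ≤ m / 2),
          PC true η S (fun F G => (e ∈ G ∧ e ∉ F) ∧ XE' e (nrm c e / 8) ↑F ↑G ∧
            (2 ≤ nrm c e / 8 → T2 c 2 (nrm c e / 8) ↑F)) ≤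
        η * L * (48 * (m : ℝ) ^ (1 / 2 : ℝ)) := by
      calc _ ≤ ∑ e ∈ (blk c m).filter (fun e => 2 ≤ nrm c e ∧ nrm c e ≤ m / 2),
            η * L * ((nrm c e : ℕ) : ℝ) ^ (-(3 / 2 : ℝ)) := by
            refine sum_le_sum fun e he => ?_
            rw [hL]
            exact pr_edge (n := n) hM hC0p h0 h1
              (fun e m a b S hS => HX n η hn h0 h1 hη e m a b S hS) HC hmn hS he
        _ = η * L * ∑ e ∈ (blk c m).filter (fun e => 2 ≤ nrm c e ∧ nrm c e ≤ m / 2),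
            ((nrm c e : ℕ) : ℝ) ^ (-(3 / 2 : ℝ)) := by rw [mul_sum]
        _ ≤ η * L * (48 * (m : ℝ) ^ (1 / 2 : ℝ)) := by
            refine mul_le_mul_of_nonneg_left (sum_nrm c m _ ?_) (by positivity)
            intro e he
            rw [mem_filter] at he
            omega
    have k4 : η * (m : ℝ) ^ (1 / 2 : ℝ) ≤ t * (m : ℝ) ^ (-(1 / 4 : ℝ)) := by
      have e1 : (m : ℝ) ^ (1 / 2 : ℝ) = (m : ℝ) ^ (3 / 4 : ℝ) * (m : ℝ) ^ (-(1 / 4 : ℝ)) := by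
        rw [← Real.rpow_add hm0]
        norm_num
      rw [e1, ← mul_assoc]
      refine mul_le_mul_of_nonneg_right ?_ hpos.le
      refine le_trans (mul_le_mul_of_nonneg_left ?_ h0) hη
      exact Real.rpow_le_rpow hm0.le (by exact_mod_cast hmn) (by norm_num)
    nlinarith [mul_le_mul_of_nonneg_left k4 (by positivity : 0 ≤ L * 48)]
  · have h1' : PC true η S (fun _ G => T2 c 2 m ↑G) ≤ 1 := N861.EW.PC_le_one h0 h1 _ _
    have h2 : (1 : ℝ) ≤ 2 * (m : ℝ) ^ (-(1 / 4 : ℝ)) := by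
      have h4 : (1 / 2 : ℝ) ≤ (m : ℝ) ^ (-(1 / 4 : ℝ)) := by
        have hm2 : (m : ℝ) ≤ 16 := by
          have : m ≤ 16 := by omega
          exact_mod_cast this
        have h5 : (16 : ℝ) ^ (-(1 / 4 : ℝ)) ≤ (m : ℝ) ^ (-(1 / 4 : ℝ)) :=
          Real.rpow_le_rpow_of_nonpos hm0 hm2 (by norm_num)
        have h6 : (16 : ℝ) ^ (-(1 / 4 : ℝ)) = 1 / 2 := by
          rw [show (16 : ℝ) = 2 ^ (4 : ℝ) by norm_num, ← Real.rpow_mul (by norm_num)]
          norm_num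
        rw [← h6]
        exact h5
      linarith
    have h3 : 0 ≤ (2 * C0 + L * 48 * t) * (m : ℝ) ^ (-(1 / 4 : ℝ)) := by positivity
    nlinarith

/-! ### Duality -/

theorem dsrc_dl (e : Edg) : dsrc (dl e) = ((src e).1 - 1, (src e).2 - 1) := by
  obtain ⟨x, y, _ | _⟩ := e <;> simp

theorem dtgt_dl (e : Edg) : dtgt (dl e) = ((tgt e).1 - 1, (tgt e).2 - 1) := by
  obtain ⟨x, y, _ | _⟩ := e <;> simp

theorem dreach_dl {H : Set Edg} {x y : Vtx} (h : Reach H x y) :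
    DReach (dl '' H) (x.1 - 1, x.2 - 1) (y.1 - 1, y.2 - 1) := by
  induction h with
  | refl => exact DReach.refl _ _
  | @tail w w' _ hs ih =>
    refine ih.trans (DAdj.reach ?_)
    obtain ⟨e, he, hc⟩ := hs
    refine ⟨dl e, ⟨e, he, rfl⟩, ?_⟩
    rw [dsrc_dl, dtgt_dl]
    rcases hc with ⟨h1, h2⟩ | ⟨h1, h2⟩
    · left
      rw [h1, h2]
      exact ⟨rfl, rfl⟩
    · right
      rw [h1, h2]
      exact ⟨rfl, rfl⟩

theorem T2_dual {c : Vtx} {m : ℕ} (hm : 3 ≤ m) {S F : Finset Edg} (hS : blk c m ⊆ S)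
    (h : T2 c 1 m ↑F) : T2 c 2 (m - 1) ↑(dmp (S \ F)) := by
  obtain ⟨⟨x, y, hx, hy, hr⟩, f, g, hf, hg, hd⟩ := T2_iff.1 h
  refine T2_of (by omega) (x := f) (y := g) hf ?_ (reach_dl.2 hd) ?_ (f := (x.1 - 1, x.2 - 1))
    (g := (y.1 - 1, y.2 - 1)) ?_ ?_ (dreach_dl hr) ?_
  · unfold Fa at hg ⊢
    omega
  · rintro e ⟨e', ⟨⟨h1, -⟩, h2⟩, rfl⟩
    rw [mem_coe, mem_dmp, Equiv.symm_apply_apply, mem_sdiff]
    exact ⟨hS h1, h2⟩
  · rw [IB_def] at hx ⊢
    push_cast at hx ⊢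
    omega
  · unfold Fa at hy ⊢
    simp only
    omega
  · rintro e ⟨e', ⟨h1, -⟩, rfl⟩ h2
    rw [mem_coe, mem_dmp, Equiv.symm_apply_apply, mem_sdiff] at h2
    exact h2.2 h1

theorem blk_dmp {c : Vtx} {m : ℕ} (hm : 1 ≤ m) {S : Finset Edg} (hS : blk c m ⊆ S) :
    blk c (m - 1) ⊆ dmp S := by
  intro e he
  rw [mem_dmp]
  apply hS
  rw [mem_blk, IB_def, IB_def] at he ⊢
  obtain ⟨x, y, _ | _⟩ := e
  · simp only [dls_f, src_mk, tgt_true, tgt_false] at he ⊢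
    omega
  · simp only [dls_t, src_mk, tgt_true, tgt_false] at he ⊢
    omega

/-- **Near-critical two-arm upper bounds.** -/
theorem t2_of (hA : ∃ C : ℝ, 0 < C ∧ AnnUp C) (h1 : ∀ b, S_XE b) : ∀ b, S_T2 b := by
  obtain ⟨C2, t, hC2, ht, HG⟩ := gT hA (h1 true)
  obtain ⟨C1, hC1, hA⟩ := hA
  have small : ∀ m : ℕ, 1 ≤ m → m ≤ 16 → (1 : ℝ) ≤ 2 * (m : ℝ) ^ (-(1 / 4 : ℝ)) := by
    intro m hm hm2
    have hm0 : (0 : ℝ) < m := by exact_mod_cast hm
    have h4 : (1 / 2 : ℝ) ≤ (m : ℝ) ^ (-(1 / 4 : ℝ)) := by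
      have hm2 : (m : ℝ) ≤ 16 := by exact_mod_cast hm2
      have h5 : (16 : ℝ) ^ (-(1 / 4 : ℝ)) ≤ (m : ℝ) ^ (-(1 / 4 : ℝ)) :=
        Real.rpow_le_rpow_of_nonpos hm0 hm2 (by norm_num)
      have h6 : (16 : ℝ) ^ (-(1 / 4 : ℝ)) = 1 / 2 := by
        rw [show (16 : ℝ) = 2 ^ (4 : ℝ) by norm_num, ← Real.rpow_mul (by norm_num)]
        norm_num
      rw [← h6]
      exact h5
    linarith
  intro b
  refine ⟨(2 * C1 + 2) + (2 * C2 + 2), t, by positivity, ht, ?_⟩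
  intro n η hn h0 h1 hη c m hm hmn S hS
  have hm0 : (0 : ℝ) < m := by exact_mod_cast hm
  have hpos : 0 < (m : ℝ) ^ (-(1 / 4 : ℝ)) := by positivity
  have hcr := crit hC1 hA (r := 1) (by norm_num) hm hS
  have hC1' : 0 < C1 * (m : ℝ) ^ (-(1 / 4 : ℝ)) := by positivity
  have hC2' : 0 < C2 * (m : ℝ) ^ (-(1 / 4 : ℝ)) := by positivity
  cases b
  · constructor
    · -- the lower configuration, by duality
      by_cases h3 : 3 ≤ m
      · have k1 : PC false η S (fun F _ => T2 c 1 m ↑F) ≤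
            PC true η (dmp S) (fun _ G => T2 c 2 (m - 1) ↑G) := by
          have k2 := N583.EW.PC_dual false η S (fun _ G => T2 c 2 (m - 1) ↑G)
          rw [Bool.not_false] at k2
          rw [k2]
          unfold PC
          refine Pr_mono (N861.EW.ok_cw h0 h1) fun K _ hT => ?_
          exact T2_dual h3 hS hT
        have k3 := HG n η hn h0 h1 hη c (m - 1) (by omega) (by omega) (dmp S) (blk_dmp hm hS)
        have k4 : ((m - 1 : ℕ) : ℝ) ^ (-(1 / 4 : ℝ)) ≤ 2 * (m : ℝ) ^ (-(1 / 4 : ℝ)) := by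
          have k5 : ((m - 1 : ℕ) : ℝ) ^ (-(1 / 4 : ℝ)) ≤ ((m : ℝ) / 16) ^ (-(1 / 4 : ℝ)) := by
            apply Real.rpow_le_rpow_of_nonpos (by positivity) _ (by norm_num)
            have k6 : m ≤ 16 * (m - 1) := by omega
            have k7 : (m : ℝ) ≤ 16 * ((m - 1 : ℕ) : ℝ) := by exact_mod_cast k6
            linarith
          have k6 : ((m : ℝ) / 16) ^ (-(1 / 4 : ℝ)) = 2 * (m : ℝ) ^ (-(1 / 4 : ℝ)) := by
            rw [Real.div_rpow hm0.le (by norm_num)]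
            have h9 : (16 : ℝ) ^ (-(1 / 4 : ℝ)) = 1 / 2 := by
              rw [show (16 : ℝ) = 2 ^ (4 : ℝ) by norm_num, ← Real.rpow_mul (by norm_num)]
              norm_num
            rw [h9]
            field_simp
          rw [← k6]
          exact k5
        nlinarith [mul_le_mul_of_nonneg_left k4 hC2.le]
      · have k1 : PC false η S (fun F _ => T2 c 1 m ↑F) ≤ 1 := N861.EW.PC_le_one h0 h1 _ _
        have k2 := small m hm (by omega)
        nlinarith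
    · rw [N861.EW.PC_up_false]
      nlinarith
  · constructor
    · rw [N861.EW.PC_lo_true]
      nlinarith
    · by_cases h3 : 2 ≤ m
      · have k1 : PC true η S (fun _ G => T2 c 1 m ↑G) ≤ PC true η S (fun _ G => T2 c 2 m ↑G) := by
          refine N861.EW.PC_mono h0 h1 ?_
          intro F G _ hT
          exact T2_sub (by norm_num) h3 le_rfl hT
        have k2 := HG n η hn h0 h1 hη c m hm hmn S hS
        nlinarith
      · have k1 : PC true η S (fun _ G => T2 c 1 m ↑G) ≤ 1 := N861.EW.PC_le_one h0 h1 _ _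
        have k2 := small m hm (by omega)
        nlinarith

end Pool.Agent.N86.EW
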